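import Pool.Agent.Q70.QDisjE

/-!
# Quasi-disjoint from every ergodic system iff quasi-disjoint from itself

The definitions (`kroneckerSpace`, `KroneckerSet`, `IsJoining`, `QuasiDisjoint`, `ErgodicSystem`)
are in `Pool.Agent.Q70.QDisjA`.
-/

set_option autoImplicit false

namespace Pool.Agent.Results.MP_e732b6_an.ErgodicIffSelf

open MeasureTheory Q70.QDisj

universe u v

/-- For a `G` system `(X, μ)`: quasi-disjoint from every ergodic `G` system iff quasi-disjoint from
itself, iff quasi-disjoint from every `G` system. -/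
theorem result (G : Type v) [Group G] [Countable G]
    (X : Type u) [TopologicalSpace X] [CompactSpace X] [TopologicalSpace.MetrizableSpace X]
    [MeasurableSpace X] [BorelSpace X] [MulAction G X] [ContinuousConstSMul G X]
    (μ : Measure X) [IsProbabilityMeasure μ] [SMulInvariantMeasure G X μ] :
    ((∀ (Y : Type u) [TopologicalSpace Y] [CompactSpace Y] [TopologicalSpace.MetrizableSpace Y]
        [MeasurableSpace Y] [BorelSpace Y] [MulAction G Y] [ContinuousConstSMul G Y]
        (ν : Measure Y) [IsProbabilityMeasure ν] [SMulInvariantMeasure G Y ν],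
        ErgodicSystem G ν → QuasiDisjoint G μ ν) ↔ QuasiDisjoint G μ μ) ∧
    ((∀ (Y : Type u) [TopologicalSpace Y] [CompactSpace Y] [TopologicalSpace.MetrizableSpace Y]
        [MeasurableSpace Y] [BorelSpace Y] [MulAction G Y] [ContinuousConstSMul G Y]
        (ν : Measure Y) [IsProbabilityMeasure ν] [SMulInvariantMeasure G Y ν],
        QuasiDisjoint G μ ν) ↔ QuasiDisjoint G μ μ) := by
  refine ⟨⟨fun h => ?_, fun h Y _ _ _ _ _ _ _ ν _ _ _ => self_to_all h⟩,
    ⟨fun h => h X μ, fun h Y _ _ _ _ _ _ _ ν _ _ => self_to_all h⟩⟩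
  exact ergodic_to_self fun ν _ _ hν => h X ν hν

end Pool.Agent.Results.MP_e732b6_an.ErgodicIffSelf
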